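import Mathlib
import Pool.Agent.H.MP_5fddfa_lc.Main

open Cardinal Set Order

universe u

namespace Pool.Agent.Results.MP_5fddfa_lc.FreeSetRelation

/-- The relation `(κ, η, θ) → ι` of the problem file: for every set `S` of cardinality `κ` and
every set mapping `f : S → 𝒫 S` (`x ∉ f x`) of order `κ` (`|f x| < κ` for all `x`) such that
`|⋂ f[X]| < θ` for every `X ⊆ S` with `|X| = η`, there is a set of cardinality `ι` free for `f`. -/
def FreeRel (κ η θ ι : Cardinal.{u}) : Prop :=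
  ∀ (S : Type u) (f : S → Set S), #S = κ → (∀ x, x ∉ f x) → (∀ x, #(f x) < κ) →
    (∀ X : Set S, #X = η → #(⋂ x ∈ X, f x : Set S) < θ) →
    ∃ F : Set S, #F = ι ∧ ∀ x ∈ F, ∀ y ∈ F, x ∉ f y

theorem general (lam : Cardinal.{u}) (hω : ℵ₀ < lam) (hsl : lam.IsStrongLimit)
    (hcof : lam.ord.cof = ℵ₀) (ι : Cardinal.{u}) (hι : ι ≤ lam) :
    FreeRel (succ lam) lam lam ι := by
  intro S f hS hself hf hX
  obtain ⟨g, hg1, hg2⟩ := Pool.Agent.H.MP_5fddfa_lc.exists_seq_of_cof lam hcof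
  obtain ⟨F, hF1, hF2⟩ := Pool.Agent.H.MP_5fddfa_lc.strong_limit_main lam hω
    (fun c hc => hsl.isStrongPrelimit hc) g hg1 hg2 S hS f hself hf hX
  obtain ⟨F', hF'1, hF'2⟩ := le_mk_iff_exists_subset.1 (hι.trans hF1.ge)
  exact ⟨F', hF'2, fun x hx y hy => hF2 x (hF'1 hx) y (hF'1 hy)⟩

theorem result :
    (∀ lam : Cardinal.{u}, ℵ₀ < lam → lam.IsStrongLimit → lam.ord.cof = ℵ₀ →
      ∀ ι ≤ lam, FreeRel (succ lam) lam lam ι) ∧
    ((∀ α : Ordinal.{u}, (2 : Cardinal.{u}) ^ ℵ_ α = ℵ_ (α + 1)) →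
      ∀ ι ≤ ℵ_ Ordinal.omega0.{u}, FreeRel (ℵ_ (Ordinal.omega0.{u} + 1))
        (ℵ_ Ordinal.omega0.{u}) (ℵ_ Ordinal.omega0.{u}) ι) := by
  refine ⟨fun lam h1 h2 h3 ι h4 => general lam h1 h2 h3 ι h4, ?_⟩
  intro hGCH ι hι
  have hω : ℵ₀ < ℵ_ Ordinal.omega0.{u} := by
    rw [← aleph_zero]
    exact aleph_lt_aleph.2 Ordinal.omega0_pos
  have hsl : (ℵ_ Ordinal.omega0.{u}).IsStrongLimit := by
    refine ⟨(aleph0_pos.trans hω).ne', ?_⟩
    intro x hx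
    rcases lt_or_ge x ℵ₀ with hfin | hinf
    · exact (power_lt_aleph0 (natCast_lt_aleph0) hfin).trans hω
    · obtain ⟨o, rfl⟩ := mem_range_aleph_iff.2 hinf
      rw [hGCH]
      rw [aleph_lt_aleph] at hx ⊢
      exact Ordinal.isSuccLimit_omega0.add_one_lt hx
  have hcof : (ℵ_ Ordinal.omega0.{u}).ord.cof = ℵ₀ := by
    rw [ord_aleph]
    rw [Ordinal.cof_omega Ordinal.isSuccLimit_omega0, Ordinal.cof_omega0]
  have h := general (ℵ_ Ordinal.omega0.{u}) hω hsl hcof ι hι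
  rw [succ_aleph] at h
  exact h

end Pool.Agent.Results.MP_5fddfa_lc.FreeSetRelation
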