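import Pool.Agent.H.MP_5fddfa_lc.CR.Core
import Pool.Agent.H.MP_5fddfa_lc.CR.Fin

/-!
# ZFC does not prove `(ℵ_{ω+1}, ℵ_ω, ℵ_ω) → ι` for any `ι ≥ ℵ₁`
-/

set_option autoImplicit false

open Cardinal

universe u

namespace Pool.Agent.Results.MP_5fddfa_lc.NotProvableInZFC

open FirstOrder Pool.Agent.H.MP_8ff4bd_gt.M3 Pool.Agent.H.MP_5fddfa_lc.CR

/-- There is a sentence `φ` of the first-order language of set theory such that

1. in every epsilon-structure `(M, E)` the sentence `φ` says: for `w = ω_ω` and `s = ω_{ω+1}` and every set mapping `f` on `s` with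
  `|f(x)| ≤ |w|` for all `x ∈ s` and `|⋂_{x ∈ X} f(x)| < w` for all `X ⊆ s` with `|X| = |w|`, there is an uncountable subset of `s`
  which is free for `f`;
2. in the universe `ZFSet` of sets, `φ` is true if and only if `(ℵ_{ω+1}, ℵ_ω, ℵ_ω) → ℵ₁`;
3. in the universe of sets `(ℵ_{ω+1}, ℵ_ω, ℵ_ω) → ι` implies `φ` for every `ι ≥ ℵ₁`;
4. the theory `ZFC`, given as a set of sentences, has the expected models, and the universe of sets is one of them;
5. `φ` is not a consequence of `ZFC`. -/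
theorem result : ∃ φ : LSet.Sentence,
    (∀ (M : Type u) (E : M → M → Prop), Sat E φ ↔ PlainE.FreeArrow E) ∧
    (Sat (fun x y : ZFSet.{0} => x ∈ y) φ ↔
      FreeRel.{0} (ℵ_ (Ordinal.omega0 + 1)) (ℵ_ Ordinal.omega0) (ℵ_ Ordinal.omega0) (ℵ_ 1)) ∧
    (∀ ι : Cardinal.{0}, ℵ_ 1 ≤ ι →
      FreeRel.{0} (ℵ_ (Ordinal.omega0 + 1)) (ℵ_ Ordinal.omega0) (ℵ_ Ordinal.omega0) ι →
      Sat (fun x y : ZFSet.{0} => x ∈ y) φ) ∧
    (∀ (M : Type u) (E : M → M → Prop),
      @FirstOrder.Language.Theory.Model LSet M (epsStr E) ZFC ↔ ZFCModel E) ∧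
    ZFCModel (fun x y : ZFSet.{0} => x ∈ y) ∧
    ¬ (ZFC ⊨ᵇ φ) := by
  exact final_of bccc_BFree fcore

end Pool.Agent.Results.MP_5fddfa_lc.NotProvableInZFC
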